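import Pool.Agent.H695R3.PP.Stmts

/-! Task Closed2: closedness of spectral conditions with two eigenvectors. -/

set_option autoImplicit false

namespace Pool.Agent.H747R3.PP

open Pool.Agent.H695R3.PP

theorem isEig_abs_le {V : ℤ → ℝ} {a b : ℤ} {E : ℝ} {ψ : ℤ → ℝ} (h : IsEig V a b E ψ) (n : ℤ) :
    |ψ n| ≤ 1 := by
  obtain ⟨h1, h2, -⟩ := h
  by_cases hn : a ≤ n ∧ n ≤ b
  · have h3 : ψ n ^ 2 ≤ nsq a b ψ :=
      Finset.single_le_sum (f := fun k => ψ k ^ 2) (fun k _ => sq_nonneg (ψ k))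
        (Finset.mem_Icc.2 hn)
    rw [h2] at h3
    exact abs_le_one_iff_mul_self_le_one.2 (by nlinarith)
  · have h3 : n < a ∨ b < n := by
      by_contra h4
      push Not at h4
      exact hn h4
    rw [h1 n h3]
    simp

/-- the compact set of candidates -/
def Kc (R : ℝ) : Set (ℝ × (ℤ → ℝ)) := Set.Icc (-R) R ×ˢ Set.pi Set.univ fun _ : ℤ => Set.Icc (-1) 1

theorem isCompact_Kc (R : ℝ) : IsCompact (Kc R) :=
  isCompact_Icc.prod (isCompact_univ_pi fun _ => isCompact_Icc)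

theorem mem_Kc {V : ℤ → ℝ} {a b : ℤ} {E R : ℝ} {ψ : ℤ → ℝ} (hE : |E| ≤ R)
    (h : IsEig V a b E ψ) : (E, ψ) ∈ Kc R :=
  ⟨abs_le.1 hE, fun n _ => abs_le.1 (isEig_abs_le h n)⟩

theorem isClosed_isEig {X : Type*} [TopologicalSpace X] {V : X → ℤ → ℝ} {E : X → ℝ}
    {ψ : X → ℤ → ℝ} (hV : Continuous V) (hE : Continuous E) (hψ : Continuous ψ) (a b : ℤ) :
    IsClosed {x | IsEig (V x) a b (E x) (ψ x)} := by
  have hV' : ∀ n, Continuous fun x => V x n := fun n => (continuous_apply n).comp hV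
  have hψ' : ∀ n, Continuous fun x => ψ x n := fun n => (continuous_apply n).comp hψ
  unfold IsEig nsq
  simp only [Set.ofPred_and, Set.ofPred_forall]
  refine IsClosed.inter ?_ (IsClosed.inter ?_ ?_)
  · exact isClosed_iInter fun n => isClosed_iInter fun _ => isClosed_eq (hψ' n) continuous_const
  · exact isClosed_eq (continuous_finsetSum _ fun n _ => (hψ' n).pow 2) continuous_const
  · exact isClosed_iInter fun n => isClosed_iInter fun _ => isClosed_iInter fun _ =>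
      isClosed_eq (((hψ' (n + 1)).add (hψ' (n - 1))).add ((hV' n).mul (hψ' n))) (hE.mul (hψ' n))

theorem taskClosed2 : TaskClosed2 := by
  intro a b a' b' R C hC
  have : CompactSpace (Kc R) := isCompact_iff_compactSpace.1 (isCompact_Kc R)
  let S : Set ((ℤ → ℝ) × (Kc R × Kc R)) := {x | IsEig x.1 a b x.2.1.1.1 x.2.1.1.2 ∧
    IsEig x.1 a' b' x.2.2.1.1 x.2.2.1.2 ∧ (x.2.1.1, x.2.2.1) ∈ C}
  have hS : IsClosed S := by
    refine IsClosed.inter ?_ (IsClosed.inter ?_ ?_)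
    · exact isClosed_isEig (by fun_prop) (by fun_prop) (by fun_prop) a b
    · exact isClosed_isEig (by fun_prop) (by fun_prop) (by fun_prop) a' b'
    · exact hC.preimage (by fun_prop)
  have h1 : {V : ℤ → ℝ | ∃ E ψ E' ψ', |E| ≤ R ∧ |E'| ≤ R ∧ IsEig V a b E ψ ∧
      IsEig V a' b' E' ψ' ∧ ((E, ψ), (E', ψ')) ∈ C} = Prod.fst '' S := by
    ext V
    constructor
    · rintro ⟨E, ψ, E', ψ', h1, h2, h3, h4, h5⟩
      exact ⟨(V, (⟨(E, ψ), mem_Kc h1 h3⟩, ⟨(E', ψ'), mem_Kc h2 h4⟩)), ⟨h3, h4, h5⟩, rfl⟩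
    · rintro ⟨⟨V, ⟨⟨⟨E, ψ⟩, h1⟩, ⟨⟨E', ψ'⟩, h2⟩⟩⟩, ⟨h3, h4, h5⟩, rfl⟩
      exact ⟨E, ψ, E', ψ', abs_le.2 h1.1, abs_le.2 h2.1, h3, h4, h5⟩
  rw [h1]
  exact isClosedMap_fst_of_compactSpace _ hS

end Pool.Agent.H747R3.PP
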